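import Mathlib
import Pool.Agent.H766R2.LittlewoodPoly
import Pool.Agent.H766R2.ZeroUpper

/-!
# MP_a4d033_an, Q1: the order of magnitude of `N(B_n; a)` is `1/a`
-/

open Polynomial

namespace Pool.Agent.Results.MP_a4d033_an.OrderBn

/-- The class `B_n`: complex polynomials `∑_{j ≤ n} a_j x^j` with `|a_0| = 1` and `|a_j| ≤ 1`. -/
def classB (n : ℕ) : Set ℂ[X] :=
  {p | p.natDegree ≤ n ∧ ‖p.coeff 0‖ = 1 ∧ ∀ j, ‖p.coeff j‖ ≤ 1}

/-- The number of distinct real zeros of `p` in `[-1+a, 1-a]`. -/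
noncomputable def zeroCount (p : ℂ[X]) (a : ℝ) : ℕ :=
  Set.ncard {x : ℝ | -1 + a ≤ x ∧ x ≤ 1 - a ∧ p.eval (x : ℂ) = 0}

lemma zeroSet_finite (p : ℂ[X]) (hp : p ≠ 0) (a : ℝ) :
    {x : ℝ | -1 + a ≤ x ∧ x ≤ 1 - a ∧ p.eval (x : ℂ) = 0}.Finite := by
  apply Set.Finite.of_finite_image (f := fun x : ℝ => (x : ℂ))
  · apply (Multiset.finite_toSet p.roots).subset
    rintro _ ⟨x, hx, rfl⟩
    simp only [Set.mem_ofPred_eq] at *
    exact (mem_roots hp).mpr hx.2.2
  · intro x _ y _ h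
    exact Complex.ofReal_injective h

lemma classB_ne_zero {n : ℕ} {p : ℂ[X]} (hp : p ∈ classB n) : p ≠ 0 := by
  rintro rfl
  have := hp.2.1
  simp at this

lemma zeroCount_upper {n : ℕ} {p : ℂ[X]} (hp : p ∈ classB n) (a : ℝ) (ha : 0 < a) :
    (zeroCount p a : ℝ) ≤ 21 / a := by
  have hfin := zeroSet_finite p (classB_ne_zero hp) a
  unfold zeroCount
  rw [Set.ncard_eq_toFinset_card _ hfin]
  apply H766R2.card_zeros p hp.2.1 hp.2.2 a ha
  intro x hx
  simpa using hx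

lemma card_le_zeroCount (p : ℂ[X]) (hp : p ≠ 0) (a : ℝ) (s : Finset ℝ)
    (hs : ∀ x ∈ s, -1 + a ≤ x ∧ x ≤ 1 - a ∧ p.eval (x : ℂ) = 0) : s.card ≤ zeroCount p a := by
  unfold zeroCount
  rw [← Set.ncard_coe_finset s]
  apply Set.ncard_le_ncard _ (zeroSet_finite p hp a)
  intro x hx
  exact hs x hx

/-- the Littlewood polynomial, complexified -/
lemma exists_littlewood (n : ℕ) (hn : 1 ≤ n) (a : ℝ) (ha : 1 / Real.sqrt n ≤ a) (ha3 : a ≤ 1 / 3) :
    ∃ p : ℂ[X], p.natDegree = n ∧ (∀ j ≤ n, p.coeff j = 1 ∨ p.coeff j = -1) ∧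
      1 / 230400 / a ≤ (zeroCount p a : ℝ) := by
  obtain ⟨P, h1, h2, s, h3, h4⟩ := H766R2.littlewood_zeros n hn a ha ha3
  have hinj : Function.Injective (algebraMap ℝ ℂ) := Complex.ofReal_injective
  refine ⟨P.map (algebraMap ℝ ℂ), ?_, ?_, ?_⟩
  · rw [natDegree_map_eq_of_injective hinj, h1]
  · intro j hj
    rw [coeff_map]
    rcases h2 j hj with h | h <;> rw [h] <;> simp
  · refine h3.trans ?_
    have hP : P.map (algebraMap ℝ ℂ) ≠ 0 := by
      rw [Ne, Polynomial.map_eq_zero_iff hinj]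
      rintro rfl
      rcases h2 0 (by omega) with h | h <;> simp at h
    have : s.card ≤ zeroCount (P.map (algebraMap ℝ ℂ)) a := by
      apply card_le_zeroCount _ hP
      intro x hx
      obtain ⟨h5, h6, h7⟩ := h4 x hx
      refine ⟨by linarith, h6, ?_⟩
      have : (P.map (algebraMap ℝ ℂ)).eval ((algebraMap ℝ ℂ) x) = (algebraMap ℝ ℂ) (P.eval x) := by
        rw [eval_map, eval₂_at_apply]
      rw [h7, map_zero] at this
      exact this
    exact_mod_cast this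

lemma littlewood_mem_classB {n : ℕ} {p : ℂ[X]} (h1 : p.natDegree = n)
    (h2 : ∀ j ≤ n, p.coeff j = 1 ∨ p.coeff j = -1) : p ∈ classB n := by
  refine ⟨h1.le, ?_, ?_⟩
  · rcases h2 0 (by omega) with h | h <;> rw [h] <;> simp
  · intro j
    by_cases hj : j ≤ n
    · rcases h2 j hj with h | h <;> rw [h] <;> simp
    · rw [coeff_eq_zero_of_natDegree_lt (by omega)]
      simp

lemma no_zeros {n : ℕ} {p : ℂ[X]} (hp : p ∈ classB n) (a : ℝ) (ha : 1 / 2 ≤ a) :
    zeroCount p a = 0 := by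
  unfold zeroCount
  rw [Set.ncard_eq_zero (zeroSet_finite p (classB_ne_zero hp) a)]
  ext x
  simp only [Set.mem_ofPred_eq, Set.mem_empty_iff_false, iff_false, not_and]
  intro h1 h2 h3
  have hx : |x| ≤ 1 / 2 := by rw [abs_le]; constructor <;> linarith
  rw [eval_eq_sum_range, Finset.sum_range_succ'] at h3
  have h4 : ‖p.coeff 0‖ = ‖∑ k ∈ Finset.range p.natDegree, p.coeff (k + 1) * (x : ℂ) ^ (k + 1)‖ := by
    have : p.coeff 0 = -∑ k ∈ Finset.range p.natDegree, p.coeff (k + 1) * (x : ℂ) ^ (k + 1) := by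
      simp only [pow_zero, mul_one] at h3
      linear_combination h3
    rw [this, norm_neg]
  rw [hp.2.1] at h4
  have h5 : ‖∑ k ∈ Finset.range p.natDegree, p.coeff (k + 1) * (x : ℂ) ^ (k + 1)‖ < 1 := by
    calc _ ≤ ∑ k ∈ Finset.range p.natDegree, ‖p.coeff (k + 1) * (x : ℂ) ^ (k + 1)‖ := norm_sum_le _ _
      _ ≤ ∑ k ∈ Finset.range p.natDegree, (1 / 2 : ℝ) ^ (k + 1) := by
          apply Finset.sum_le_sum
          intro k _
          rw [norm_mul, norm_pow, Complex.norm_real, Real.norm_eq_abs]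
          calc ‖p.coeff (k + 1)‖ * |x| ^ (k + 1) ≤ 1 * (1 / 2) ^ (k + 1) := by
                gcongr
                exact hp.2.2 _
            _ = _ := one_mul _
      _ = 1 - (1 / 2 : ℝ) ^ p.natDegree := by
          have : ∀ m : ℕ, ∑ k ∈ Finset.range m, (1 / 2 : ℝ) ^ (k + 1) = 1 - (1 / 2 : ℝ) ^ m := by
            intro m
            induction m with
            | zero => simp
            | succ m ih => rw [Finset.sum_range_succ, ih]; ring
          exact this _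
      _ < 1 := by
          have : (0 : ℝ) < (1 / 2) ^ p.natDegree := by positivity
          linarith
  linarith

/-- **Q1 of MP_a4d033_an.** The order of magnitude of `N(B_n; a)` is `1/a`: every polynomial in
`B_n` has at most `c₂/a` distinct zeros in `[-1+a, 1-a]`; for `n^{-1/2} ≤ a ≤ 1/3` some polynomial in
`B_n` has at least `c₁/a` of them; the same holds for every `a ∈ [n^{-1/2}, 1)` for which some
polynomial in `B_n` has a zero in that interval at all; and for `a ≥ 1/2` no polynomial of `B_n` has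
a zero there. -/
theorem result : ∃ c₁ c₂ : ℝ, 0 < c₁ ∧ 0 < c₂ ∧
    (∀ n : ℕ, 1 ≤ n → ∀ a : ℝ, 0 < a → a < 1 → ∀ p ∈ classB n, (zeroCount p a : ℝ) ≤ c₂ / a) ∧
    (∀ n : ℕ, 1 ≤ n → ∀ a : ℝ, 1 / Real.sqrt n ≤ a → a ≤ 1 / 3 →
      ∃ p ∈ classB n, c₁ / a ≤ (zeroCount p a : ℝ)) ∧
    (∀ n : ℕ, 1 ≤ n → ∀ a : ℝ, 1 / Real.sqrt n ≤ a → a < 1 → (∃ p ∈ classB n, 1 ≤ zeroCount p a) →
      ∃ p ∈ classB n, c₁ / a ≤ (zeroCount p a : ℝ)) ∧
    (∀ n : ℕ, 1 ≤ n → ∀ a : ℝ, 1 / 2 ≤ a → ∀ p ∈ classB n, zeroCount p a = 0) := by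
  have hmain : ∀ n : ℕ, 1 ≤ n → ∀ a : ℝ, 1 / Real.sqrt n ≤ a → a ≤ 1 / 3 →
      ∃ p ∈ classB n, (1 / 230400 : ℝ) / a ≤ (zeroCount p a : ℝ) := by
    intro n hn a ha ha3
    obtain ⟨p, h1, h2, h3⟩ := exists_littlewood n hn a ha ha3
    exact ⟨p, littlewood_mem_classB h1 h2, h3⟩
  refine ⟨1 / 230400, 21, by norm_num, by norm_num, ?_, hmain, ?_, ?_⟩
  · intro n _ a ha _ p hp
    exact zeroCount_upper hp a ha
  · intro n hn a ha _ hex
    by_cases ha3 : a ≤ 1 / 3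
    · exact hmain n hn a ha ha3
    · push Not at ha3
      obtain ⟨p, hp, h1⟩ := hex
      refine ⟨p, hp, ?_⟩
      have h2 : (1 : ℝ) ≤ (zeroCount p a : ℝ) := by exact_mod_cast h1
      refine le_trans ?_ h2
      rw [div_le_one (by linarith)]
      linarith
  · intro n _ a ha p hp
    exact no_zeros hp a ha

end Pool.Agent.Results.MP_a4d033_an.OrderBn
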