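import Mathlib
import Pool.Agent.Results.MP_a4d033_an.OrderBn

/-!
# MP_a4d033_an, Q2: the order of magnitude of `N(F_n; a)` is `1/a`, attained by Littlewood polynomials
-/

open Polynomial

namespace Pool.Agent.Results.MP_a4d033_an.OrderFn

/-- The class `F_n`: polynomials of degree at most `n` with all coefficients in `{-1, 0, 1}`. -/
def classF (n : ℕ) : Set ℂ[X] :=
  {p | p.natDegree ≤ n ∧ ∀ j, p.coeff j = -1 ∨ p.coeff j = 0 ∨ p.coeff j = 1}

/-- The number of distinct real zeros of `p` in `[-1+a, 1-a]`. -/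
noncomputable def zeroCount (p : ℂ[X]) (a : ℝ) : ℕ :=
  Set.ncard {x : ℝ | -1 + a ≤ x ∧ x ≤ 1 - a ∧ p.eval (x : ℂ) = 0}

lemma zeroCount_eq (p : ℂ[X]) (a : ℝ) : zeroCount p a = OrderBn.zeroCount p a := rfl

lemma classF_upper {n : ℕ} {p : ℂ[X]} (hp : p ∈ classF n) (hp0 : p ≠ 0) (a : ℝ) (ha : 0 < a)
    (ha1 : a < 1) : (zeroCount p a : ℝ) ≤ 22 / a := by
  obtain ⟨q, hq⟩ : X ^ p.natTrailingDegree ∣ p := X_pow_dvd_iff.mpr fun d hd =>
    coeff_eq_zero_of_lt_natTrailingDegree hd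
  set m := p.natTrailingDegree with hm
  have hqc : ∀ j, q.coeff j = p.coeff (j + m) := by
    intro j
    rw [hq, coeff_X_pow_mul]
  have hq0 : ‖q.coeff 0‖ = 1 := by
    rw [hqc, zero_add]
    have h1 : p.coeff m ≠ 0 := by
      rw [hm]
      exact (trailingCoeff_nonzero_iff_nonzero (p := p)).mpr hp0
    rcases hp.2 m with h | h | h
    · rw [h]; simp
    · exact absurd h h1
    · rw [h]; simp
  have hqb : ∀ j, ‖q.coeff j‖ ≤ 1 := by
    intro j
    rw [hqc]
    rcases hp.2 (j + m) with h | h | h <;> rw [h] <;> simp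
  have hfin := OrderBn.zeroSet_finite p hp0 a
  have hcount : (zeroCount p a : ℝ) = (hfin.toFinset.card : ℝ) := by
    rw [zeroCount_eq]
    unfold OrderBn.zeroCount
    rw [Set.ncard_eq_toFinset_card _ hfin]
  have h1 : ((hfin.toFinset.erase 0).card : ℝ) ≤ 21 / a := by
    apply H766R2.card_zeros q hq0 hqb a ha
    intro x hx
    rw [Finset.mem_erase] at hx
    have hx2 : -1 + a ≤ x ∧ x ≤ 1 - a ∧ p.eval (x : ℂ) = 0 := by simpa using hx.2
    refine ⟨hx2.1, hx2.2.1, ?_⟩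
    have h3 := hx2.2.2
    rw [hq, eval_mul, eval_pow, eval_X] at h3
    rcases mul_eq_zero.mp h3 with h | h
    · exfalso
      have hx0 : (x : ℂ) ≠ 0 := by exact_mod_cast hx.1
      exact pow_ne_zero m hx0 h
    · exact h
  have h2 : (hfin.toFinset.card : ℝ) ≤ ((hfin.toFinset.erase 0).card : ℝ) + 1 := by
    have := Finset.pred_card_le_card_erase (s := hfin.toFinset) (a := (0 : ℝ))
    have h3 : hfin.toFinset.card ≤ (hfin.toFinset.erase 0).card + 1 := by omega
    exact_mod_cast h3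
  rw [hcount]
  have h3 : 1 ≤ 1 / a := by rw [le_div_iff₀ ha]; linarith
  have h4 : 22 / a = 21 / a + 1 / a := by ring
  linarith

/-- **Q2 of MP_a4d033_an.** The order of magnitude of `N(F_n; a)` is `1/a` on the whole range
`n^{-1/2} ≤ a < 1`; moreover for `a ≤ 1/3` the lower bound is attained by polynomials of degree `n`
all of whose coefficients `a_0, …, a_n` are `±1`. -/
theorem result : ∃ c₁ c₂ : ℝ, 0 < c₁ ∧ 0 < c₂ ∧
    (∀ n : ℕ, 1 ≤ n → ∀ a : ℝ, 0 < a → a < 1 → ∀ p ∈ classF n, p ≠ 0 →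
      (zeroCount p a : ℝ) ≤ c₂ / a) ∧
    (∀ n : ℕ, 1 ≤ n → ∀ a : ℝ, 1 / Real.sqrt n ≤ a → a < 1 →
      ∃ p ∈ classF n, p ≠ 0 ∧ c₁ / a ≤ (zeroCount p a : ℝ)) ∧
    (∀ n : ℕ, 1 ≤ n → ∀ a : ℝ, 1 / Real.sqrt n ≤ a → a ≤ 1 / 3 →
      ∃ p : ℂ[X], p.natDegree = n ∧ (∀ j ≤ n, p.coeff j = 1 ∨ p.coeff j = -1) ∧
        c₁ / a ≤ (zeroCount p a : ℝ)) := by
  have hmain : ∀ n : ℕ, 1 ≤ n → ∀ a : ℝ, 1 / Real.sqrt n ≤ a → a ≤ 1 / 3 →
      ∃ p : ℂ[X], p.natDegree = n ∧ (∀ j ≤ n, p.coeff j = 1 ∨ p.coeff j = -1) ∧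
        (1 / 230400 : ℝ) / a ≤ (zeroCount p a : ℝ) := by
    intro n hn a ha ha3
    exact OrderBn.exists_littlewood n hn a ha ha3
  refine ⟨1 / 230400, 22, by norm_num, by norm_num, ?_, ?_, hmain⟩
  · intro n _ a ha ha1 p hp hp0
    exact classF_upper hp hp0 a ha ha1
  · intro n hn a ha ha1
    by_cases ha3 : a ≤ 1 / 3
    · obtain ⟨p, h1, h2, h3⟩ := hmain n hn a ha ha3
      refine ⟨p, ⟨h1.le, ?_⟩, ?_, h3⟩
      · intro j
        by_cases hj : j ≤ n
        · rcases h2 j hj with h | h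
          · exact Or.inr (Or.inr h)
          · exact Or.inl h
        · right; left
          exact coeff_eq_zero_of_natDegree_lt (by omega)
      · rintro rfl
        rcases h2 0 (by omega) with h | h <;> simp at h
    · push Not at ha3
      refine ⟨X, ⟨?_, ?_⟩, X_ne_zero, ?_⟩
      · rw [natDegree_X]; exact hn
      · intro j
        rw [coeff_X]
        split_ifs <;> simp
      · have h1 : ({0} : Finset ℝ).card ≤ OrderBn.zeroCount X a := by
          apply OrderBn.card_le_zeroCount X X_ne_zero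
          intro x hx
          rw [Finset.mem_singleton] at hx
          subst hx
          refine ⟨by linarith, by linarith, by simp⟩
        have h2 : (1 : ℝ) ≤ (zeroCount X a : ℝ) := by
          rw [zeroCount_eq]
          exact_mod_cast h1
        refine le_trans ?_ h2
        rw [div_le_one (by linarith)]
        linarith

end Pool.Agent.Results.MP_a4d033_an.OrderFn
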